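import Pool.Agent.H90.FS.Fin2

/-!
Self-avoiding walks on the (3.12²) lattice (triangles and dodecagons): bounds and exponents of the
non-intersection probability and of the number of walks are determined by sparse sequences of
lengths, and polynomial upper bounds for the numbers of walks on this lattice and on the honeycomb
lattice are equivalent.
-/

set_option autoImplicit false

namespace Pool.Agent.Results.MP_8c6f77_pr.SparseDodecagons

open Filter Topology
open Pool.Agent.H90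

/-- The neighbour of the vertex `p` of the honeycomb lattice along its edge of direction
`i = 0, 1, 2`, in brick-wall coordinates: if `p.1 + p.2` is even, then the neighbours of `p` are
`p + (1, 0)`, `p + (-1, 0)` and `p + (0, 1)`; if `p.1 + p.2` is odd, then they are `p - (1, 0)`,
`p - (-1, 0)` and `p - (0, 1)`. An edge has the same direction at both of its end points. -/
def nbr (i : Fin 3) (p : ℤ × ℤ) : ℤ × ℤ :=
  if Even (p.1 + p.2) then p + ![(1, 0), (-1, 0), (0, 1)] i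
  else p - ![(1, 0), (-1, 0), (0, 1)] i

/-- Adjacency on the honeycomb lattice. -/
def Hex (p q : ℤ × ℤ) : Prop := ∃ i, q = nbr i p

/-- Adjacency on the (3.12²) lattice: every vertex `p` of the honeycomb lattice is replaced by a
triangle with the vertices `(p, 0)`, `(p, 1)`, `(p, 2)`, and `(p, i)` is joined to `(q, i)` if `q` is
the neighbour of `p` along the edge of direction `i`. -/
def Dod (x y : (ℤ × ℤ) × Fin 3) : Prop :=
  (x.1 = y.1 ∧ x.2 ≠ y.2) ∨ (y.1 = nbr x.2 x.1 ∧ y.2 = x.2)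

/-- The number of `n`-step self-avoiding walks from `o`. -/
noncomputable def saw {V : Type} (Adj : V → V → Prop) (o : V) (n : ℕ) : ℝ :=
  (Set.ncard {f : Fin (n + 1) → V |
    f 0 = o ∧ Function.Injective f ∧ ∀ i : Fin n, Adj (f i.castSucc) (f i.succ)} : ℝ)

/-- The number of `n`-step self-avoiding walks on the honeycomb lattice from the origin. -/
noncomputable def aH (n : ℕ) : ℝ := saw Hex (0, 0) n

/-- The number of `n`-step self-avoiding walks on the (3.12²) lattice from the vertex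
`((0, 0), 0)`. -/
noncomputable def a (n : ℕ) : ℝ := saw Dod ((0, 0), 0) n

/-- The probability that two independent uniform `n`-step self-avoiding walks on the (3.12²) lattice
from the same vertex do not meet again (the quotient `a_{2n} / a_n²`, see the problem file). -/
noncomputable def P (n : ℕ) : ℝ := a (2 * n) / a n ^ 2

/-- The lengths `t 0, t 1, …` tend to infinity and `t (j+1) - t j = o(√(t j log (t j)))`. -/
def IsSparse (t : ℕ → ℕ) : Prop :=
  Tendsto t atTop atTop ∧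
    Tendsto (fun j => ((t (j + 1) : ℝ) - t j) / √(t j * Real.log (t j))) atTop (𝓝 0)

theorem aH_eq (n : ℕ) : aH n = FS.aH n := by
  unfold aH saw FS.aH FS.hc
  rw [FS.ncard_eq FS.nbr FS.nbr_inj Hex (fun _ _ => Iff.rfl) n (0, 0)]
  rfl

theorem Dod_iff (x y : (ℤ × ℤ) × Fin 3) : Dod x y ↔ ∃ c, y = FS.fb c x := by
  obtain ⟨v, i⟩ := x
  obtain ⟨w, j⟩ := y
  unfold Dod FS.fb
  simp only
  constructor
  · rintro (⟨h1, h2⟩ | ⟨h1, h2⟩)
    · refine ⟨j - i, ?_⟩
      rw [if_neg (sub_ne_zero.2 (Ne.symm h2)), h1, add_sub_cancel]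
    · exact ⟨0, by rw [if_pos rfl, h1, h2]; rfl⟩
  · rintro ⟨c, hc⟩
    split_ifs at hc with h
    · right
      rw [Prod.mk.injEq] at hc
      exact hc
    · left
      rw [Prod.mk.injEq] at hc
      refine ⟨hc.1.symm, fun h2 => h ?_⟩
      rw [← h2] at hc
      exact left_eq_add.1 hc.2

theorem a_eq (n : ℕ) : a n = FS.aF n := by
  unfold a saw FS.aF
  rw [FS.ncard_eq FS.fb FS.fb_inj Dod Dod_iff n ((0, 0), 0)]

/-- **Theorem.** There is `μ > 0` with `1 / μ² + 1 / μ³ = 1 / √(2 + √2)` such that for the (3.12²)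
lattice, with `a_n` the number of `n`-step walks and `P_n = a_{2n} / a_n²`, and for every sparse
sequence `t` of lengths:

(1) If `b ≥ 0` and `P_n ≥ n^(-b)` for all large `n` of the sequence, then for every `ε > 0` and all
large `n`: `P_n ≥ n^(-b-ε)`, `a_n ≤ μ^n n^(b+ε)` and, on the honeycomb lattice,
`a_n ≤ √(2 + √2)^n n^(b+ε)`.

(2) For every real `α` the following are equivalent: `P_n = n^(-α+o(1))` along the sequence,
`P_n = n^(-α+o(1))` along all `n`, `a_n = μ^n n^(α+o(1))` along the sequence, and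
`a_n = μ^n n^(α+o(1))` along all `n`.

(3) For every `β ≥ 0` the following are equivalent: `a_n ≤ μ^n n^(β+o(1))` along the sequence, the
same along all `n`, and `a_n ≤ √(2 + √2)^n n^(β+o(1))` along all `n` on the honeycomb lattice.

(4) For every `s < 1/75`: `P_n < n^(-s)` for infinitely many `n` of the sequence. -/
theorem result : ∃ μ : ℝ, 0 < μ ∧ 1 / μ ^ 2 + 1 / μ ^ 3 = 1 / √(2 + √2) ∧
    ∀ t : ℕ → ℕ, IsSparse t →
    (∀ b : ℝ, 0 ≤ b → (∀ᶠ j in atTop, (t j : ℝ) ^ (-b) ≤ P (t j)) →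
      ∀ ε : ℝ, 0 < ε → ∀ᶠ n : ℕ in atTop, (n : ℝ) ^ (-b - ε) ≤ P n ∧
        a n ≤ μ ^ n * (n : ℝ) ^ (b + ε) ∧ aH n ≤ √(2 + √2) ^ n * (n : ℝ) ^ (b + ε)) ∧
    (∀ α : ℝ, List.TFAE [
      Tendsto (fun j => Real.log (P (t j)) / Real.log (t j)) atTop (𝓝 (-α)),
      Tendsto (fun n : ℕ => Real.log (P n) / Real.log n) atTop (𝓝 (-α)),
      Tendsto (fun j => Real.log (a (t j) / μ ^ t j) / Real.log (t j)) atTop (𝓝 α),
      Tendsto (fun n : ℕ => Real.log (a n / μ ^ n) / Real.log n) atTop (𝓝 α)]) ∧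
    (∀ β : ℝ, 0 ≤ β → List.TFAE [
      ∀ ε : ℝ, 0 < ε → ∀ᶠ j in atTop, a (t j) ≤ μ ^ t j * (t j : ℝ) ^ (β + ε),
      ∀ ε : ℝ, 0 < ε → ∀ᶠ n : ℕ in atTop, a n ≤ μ ^ n * (n : ℝ) ^ (β + ε),
      ∀ ε : ℝ, 0 < ε → ∀ᶠ n : ℕ in atTop, aH n ≤ √(2 + √2) ^ n * (n : ℝ) ^ (β + ε)]) ∧
    ∀ s : ℝ, s < 1 / 75 → ∃ᶠ j in atTop, P (t j) < (t j : ℝ) ^ (-s) := by
  obtain ⟨z, c, C, m, D⟩ := FS.dat
  have hz := D.P.hz
  have hzn : ∀ n : ℕ, z ^ n ≠ 0 := fun n => pow_ne_zero _ hz.ne'
  obtain ⟨lb, hlb⟩ : ∃ lb : ℕ → ℝ, lb = fun n => Real.log (FS.aF n * z ^ n) := ⟨_, rfl⟩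
  have hlbn : ∀ n, lb n = Real.log (FS.aF n * z ^ n) := fun n => by rw [hlb]
  have hF : ∀ n, a n / (1 / z) ^ n = FS.aF n * z ^ n := fun n => by
    rw [a_eq, one_div, inv_pow, div_inv_eq_mul]
  have hP : ∀ n, P n = FS.aF (2 * n) * z ^ (2 * n) / (FS.aF n * z ^ n) ^ 2 := fun n => by
    unfold P
    rw [a_eq, a_eq, mul_pow, ← pow_mul, mul_comm n 2, mul_div_mul_right _ _ (hzn _)]
  have hμ : 0 < 1 / z := by positivity
  have hbpos : ∀ n : ℕ, 3 ≤ n → 0 < FS.aF n * z ^ n := fun n hn => D.b_pos hn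
  have hPpos : ∀ n : ℕ, 3 ≤ n → 0 < P n := fun n hn => by
    rw [hP]
    exact div_pos (hbpos _ (by omega)) (pow_pos (hbpos n hn) 2)
  have hlogP : ∀ n : ℕ, 3 ≤ n → Real.log (P n) = lb (2 * n) - 2 * lb n := fun n hn => by
    rw [hP, Real.log_div (hbpos _ (by omega)).ne' (pow_pos (hbpos n hn) 2).ne', Real.log_pow,
      hlbn, hlbn]
    push_cast
    ring
  have hrpos : ∀ n : ℕ, 0 < FS.rH n := fun n => by linarith [D.r1 n]
  have NRF : FS.NR lb := by rw [hlb]; exact FS.nrF D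
  have hpos : ∀ᶠ n : ℕ in atTop, 0 ≤ lb n := by rw [hlb]; exact FS.lF_pos D
  obtain ⟨B, hB, hbd⟩ : ∃ B : ℝ, 0 ≤ B ∧ ∀ᶠ n : ℕ in atTop, |lb n| ≤ B * Real.log n ^ 2 + 0 := by
    rw [hlb]; exact FS.lF_bd D
  -- translations
  have hupF : ∀ (n : ℕ) (x : ℝ), 3 ≤ n →
      (a n ≤ (1 / z) ^ n * (n : ℝ) ^ x ↔ lb n ≤ x * Real.log n) := by
    intro n x hn
    have hn0 : (0 : ℝ) < n := by exact_mod_cast (show 0 < n by omega)
    rw [hlbn, Real.log_le_iff_le_exp (hbpos n hn), Real.rpow_def_of_pos hn0,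
      mul_comm (Real.log n) x, ← hF, div_le_iff₀ (pow_pos hμ n), mul_comm ((1 / z) ^ n)]
  have hupH : ∀ (n : ℕ) (x : ℝ), 3 ≤ n →
      (aH n ≤ √(2 + √2) ^ n * (n : ℝ) ^ x ↔ Real.log (FS.rH n) ≤ x * Real.log n) := by
    intro n x hn
    have hn0 : (0 : ℝ) < n := by exact_mod_cast (show 0 < n by omega)
    rw [Real.log_le_iff_le_exp (hrpos n), aH_eq, Real.rpow_def_of_pos hn0,
      mul_comm (Real.log n) x]
    unfold FS.rH
    rw [div_le_iff₀ (pow_pos FS.mu_pos n), mul_comm (√(2 + √2) ^ n)]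
  have hloF : ∀ (n : ℕ) (x : ℝ), 3 ≤ n →
      ((n : ℝ) ^ x ≤ P n ↔ x * Real.log n ≤ lb (2 * n) - 2 * lb n) := by
    intro n x hn
    have hn0 : (0 : ℝ) < n := by exact_mod_cast (show 0 < n by omega)
    rw [← hlogP n hn, Real.le_log_iff_exp_le (hPpos n hn), Real.rpow_def_of_pos hn0,
      mul_comm (Real.log n) x]
  have hlim : ∀ α : ℝ, Tendsto (fun n : ℕ => Real.log (P n) / Real.log n) atTop (𝓝 (-α)) ↔
      Tendsto (fun n : ℕ => lb n / Real.log n) atTop (𝓝 α) := by
    intro α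
    have h := EquivalenceWithGrowth.seq_iff (a := fun n => FS.cnt FS.fb n ((0, 0), 0) ∅) hμ
      (FS.conn D) α
    have e1 : (fun n : ℕ => Real.log (EquivalenceWithGrowth.r
        (fun n => FS.cnt FS.fb n ((0, 0), 0) ∅) (1 / z) n) / Real.log n) =
        fun n : ℕ => lb n / Real.log n := by
      funext n
      rw [hlbn, ← hF, a_eq]
      rfl
    have e2 : (fun n : ℕ => Real.log (EquivalenceWithGrowth.rt
        (fun n => FS.cnt FS.fb n ((0, 0), 0) ∅) n) / Real.log n) =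
        fun n : ℕ => Real.log (P n) / Real.log n := by
      funext n
      unfold P
      rw [a_eq, a_eq]
      rfl
    rw [e1, e2] at h
    exact h.symm
  refine ⟨1 / z, hμ, ?_, ?_⟩
  · have h1 := D.P.h
    have h2 : (√(2 + √2) : ℝ) ≠ 0 := FS.mu_pos.ne'
    rw [one_div_pow, one_div_pow, one_div_one_div, one_div_one_div, eq_div_iff h2]
    exact h1
  rintro t ⟨ht, hsp⟩
  have ht3 : ∀ᶠ j in atTop, 3 ≤ t j := ht.eventually_ge_atTop 3
  -- part (1)
  have part1 : ∀ b : ℝ, 0 ≤ b → (∀ᶠ j in atTop, (t j : ℝ) ^ (-b) ≤ P (t j)) →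
      ∀ ε : ℝ, 0 < ε → ∀ᶠ n : ℕ in atTop, (n : ℝ) ^ (-b - ε) ≤ P n ∧
        a n ≤ (1 / z) ^ n * (n : ℝ) ^ (b + ε) ∧
        aH n ≤ √(2 + √2) ^ n * (n : ℝ) ^ (b + ε) := by
    intro b hb h ε hε
    have hc : ∀ᶠ j in atTop, -(b * Real.log (t j)) ≤ lb (2 * t j) - 2 * lb (t j) := by
      filter_upwards [h, ht3] with j h1 h2
      rw [hloF _ _ h2] at h1
      linarith
    have h1 := NRF.dbl_low hB hbd hpos ht hsp hb hc hε
    have h2 : ∀ ε : ℝ, 0 < ε → ∀ᶠ n : ℕ in atTop, lb n ≤ (b + ε) * Real.log n := by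
      intro ε' hε'
      refine NRF.dbl_up hB hbd ht hsp (fun δ hδ => ?_) hε'
      filter_upwards [hc, (Q215.SAW.Cvx.log_tend.comp ht).eventually_gt_atTop 0] with j h3 h4
      simp only [Function.comp] at h4
      nlinarith
    have h3 := D.A3 FS.basic.2.1 hb (by rw [hlb] at h2; exact h2) ε hε
    filter_upwards [h1, h2 ε hε, h3, eventually_ge_atTop 3] with n a1 a2 a3 a4
    rw [hloF n _ a4, hupF n _ a4, hupH n _ a4]
    exact ⟨by linarith, a2, a3⟩
  refine ⟨part1, fun α => ?_, fun β hβ => ?_, fun s hs => ?_⟩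
  · -- part (2)
    have e4 : (fun n : ℕ => Real.log (a n / (1 / z) ^ n) / Real.log n) =
        fun n : ℕ => lb n / Real.log n := by
      funext n
      rw [hF, hlbn]
    have e3 : (fun j => Real.log (a (t j) / (1 / z) ^ t j) / Real.log (t j)) =
        fun j => lb (t j) / Real.log (t j) := by
      funext j
      rw [hF, hlbn]
    rw [e3, e4]
    tfae_have 2 → 1 := fun h => h.comp ht
    tfae_have 4 → 3 := fun h => h.comp ht
    tfae_have 2 ↔ 4 := hlim α
    tfae_have 3 → 4 := fun h => NRF.lim hpos ht hsp h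
    tfae_have 1 → 4 := by
      intro h
      refine NRF.dbl_lim hB hbd hpos ht hsp ?_
      have h3 := h.neg
      rw [neg_neg] at h3
      refine h3.congr' ?_
      filter_upwards [ht3] with j hj
      rw [hlogP _ hj]
      ring
    tfae_finish
  · -- part (3)
    tfae_have 2 → 1 := fun h ε hε => ht.eventually (h ε hε)
    tfae_have 1 → 2 := by
      intro h ε hε
      have h1 : ∀ ε : ℝ, 0 < ε → ∀ᶠ j in atTop, lb (t j) ≤ (β + ε) * Real.log (t j) := by
        intro ε' hε'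
        filter_upwards [h ε' hε', ht3] with j h2 h3
        exact (hupF _ _ h3).1 h2
      filter_upwards [NRF.up ht hsp h1 ε hε, eventually_ge_atTop 3] with n h2 h3
      exact (hupF _ _ h3).2 h2
    tfae_have 2 → 3 := by
      intro h ε hε
      have h1 : ∀ ε : ℝ, 0 < ε → ∀ᶠ n : ℕ in atTop, lb n ≤ (β + ε) * Real.log n := by
        intro ε' hε'
        filter_upwards [h ε' hε', eventually_ge_atTop 3] with j h2 h3
        exact (hupF _ _ h3).1 h2
      rw [hlb] at h1
      filter_upwards [D.A3 FS.basic.2.1 hβ h1 ε hε, eventually_ge_atTop 3] with n h2 h3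
      exact (hupH _ _ h3).2 h2
    tfae_have 3 → 2 := by
      intro h ε hε
      have h1 : ∀ ε : ℝ, 0 < ε → ∀ᶠ n : ℕ in atTop,
          Real.log (FS.rH n) ≤ (β + ε) * Real.log n := by
        intro ε' hε'
        filter_upwards [h ε' hε', eventually_ge_atTop 3] with j h2 h3
        exact (hupH _ _ h3).1 h2
      have h2 := D.A1 hβ h1 ε hε
      filter_upwards [h2, eventually_ge_atTop 3] with n h2 h3
      rw [hupF _ _ h3, hlbn]
      exact h2
    tfae_finish
  · -- part (4)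
    by_contra hcon
    rw [not_frequently] at hcon
    obtain ⟨s', hs'⟩ : ∃ s' : ℝ, s' = max s 0 := ⟨_, rfl⟩
    have hs'0 : 0 ≤ s' := by rw [hs']; exact le_max_right _ _
    have hs's : s ≤ s' := by rw [hs']; exact le_max_left _ _
    have hs'1 : s' < 1 / 75 := by rw [hs']; exact max_lt hs (by norm_num)
    have h1 : ∀ᶠ j in atTop, (t j : ℝ) ^ (-s') ≤ P (t j) := by
      filter_upwards [hcon, ht3] with j h1 h2
      rw [not_lt] at h1
      refine le_trans ?_ h1
      exact Real.rpow_le_rpow_of_exponent_le (by exact_mod_cast (show 1 ≤ t j by omega))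
        (by linarith)
    have h2 := part1 s' hs'0 h1 ((1 / 75 - s') / 2) (by linarith)
    obtain ⟨c', K, hc', -, hU⟩ := FS.uncond D
    obtain ⟨n, h3, h4, h5⟩ := (h2.and ((FS.log_le_eps
      (show 0 < (1 / 75 - s') / 2 by linarith) (-Real.log c' + 1)).and
        (eventually_ge_atTop 3))).exists
    have hn0 : (0 : ℝ) < n := by exact_mod_cast (show 0 < n by omega)
    have h6 := Real.log_le_log (by positivity) (hU n h5).1
    rw [Real.log_mul hc'.ne' (Real.rpow_pos_of_pos hn0 _).ne', Real.log_rpow hn0, ← hlbn] at h6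
    have h7 := (hupF n _ h5).1 h3.2.1
    linarith

end Pool.Agent.Results.MP_8c6f77_pr.SparseDodecagons
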