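import Pool.Agent.H30.FT.Low75

/-!
# The lattice of triangles and dodecagons and the honeycomb lattice

The lattice `(3.12²)` of triangles and dodecagons arises from the honeycomb lattice by replacing
each site by a triangle. Two independent self-avoiding walks on it with `n` steps do not meet again
with probability at least `exp (-K log² n)`; and for every real number `α`, this probability is
`n ^ (-α + o(1))` on the lattice of triangles and dodecagons if and only if it is on the honeycomb
lattice. The same holds for the numbers of walks divided by the powers of the growth constants, and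
`α ≥ 1 / 75` in this case.
-/

set_option autoImplicit false

namespace Pool.Agent.Results.MP_8c6f77_pr.TrianglesDodecagons

open Filter Topology

/-- The honeycomb lattice, drawn as a brick wall on `ℤ × ℤ`: every site is adjacent to its left and
right neighbour, and to the site above it when the sum of its coordinates is even (to the site below
it when the sum is odd). -/
def Hex (p q : ℤ × ℤ) : Prop :=
  q - p = (1, 0) ∨ q - p = (-1, 0) ∨ (q - p = (0, 1) ∧ Even (p.1 + p.2)) ∨
    (q - p = (0, -1) ∧ Even (q.1 + q.2))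

/-- The vertices of the lattice of triangles and dodecagons: the pairs `(p, q)` of adjacent sites of
the honeycomb lattice. The pair `(p, q)` is the corner, on the bond from `p` to `q`, of the triangle
which replaces the site `p`. -/
def Corner : Type := {d : (ℤ × ℤ) × (ℤ × ℤ) // Hex d.1 d.2}

/-- The lattice of triangles and dodecagons: the three corners of a triangle are pairwise adjacent,
and `(p, q)` is adjacent to `(q, p)`. -/
def Dod (u v : Corner) : Prop := (u.1.1 = v.1.1 ∧ u ≠ v) ∨ (u.1.2 = v.1.1 ∧ v.1.2 = u.1.1)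

/-- The vertex `((0, 0), (1, 0))`. -/
def origin : Corner := ⟨((0, 0), (1, 0)), Or.inl rfl⟩

/-- The self-avoiding paths with `n` steps from `o`. -/
def Om {X : Type} (Adj : X → X → Prop) (o : X) (n : ℕ) : Set (Fin (n + 1) → X) :=
  {w | w 0 = o ∧ Function.Injective w ∧ ∀ i : Fin n, Adj (w i.castSucc) (w i.succ)}

/-- The number of self-avoiding paths with `n` steps from `o`. -/
noncomputable def a {X : Type} (Adj : X → X → Prop) (o : X) (n : ℕ) : ℝ :=
  ((Om Adj o n).ncard : ℝ)

/-- The probability that two independent paths `w`, `w'`, uniformly distributed on `Om Adj o n`,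
satisfy `w {1, …, n} ∩ w' {0, …, n} = ∅`. -/
noncomputable def P {X : Type} (Adj : X → X → Prop) (o : X) (n : ℕ) : ℝ :=
  (Set.ncard {p : (Fin (n + 1) → X) × (Fin (n + 1) → X) |
    p.1 ∈ Om Adj o n ∧ p.2 ∈ Om Adj o n ∧ ∀ i j : Fin (n + 1), i ≠ 0 → p.1 i ≠ p.2 j} : ℝ) /
  a Adj o n ^ 2

/-- **Theorem.** There are `μ > 1` and `K` such that:
(1) `1 / μ² + 1 / μ³ = 1 / √(2 + √2)` and `μ` is the growth constant of the lattice of triangles and
dodecagons: its numbers of paths satisfy `a_n ^ (1 / n) → μ`, and `μ ^ n ≤ a_n` for all `n`;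
(2) on this lattice two independent paths with `n ≥ 2` steps do not meet again with probability
`P_n ≥ exp (-K log² n)`, and `μ ^ n n ^ (1 / 75) / K ≤ a_n ≤ μ ^ n exp (K log² n)`;
(3) for every real `α` the following are equivalent: `P_n = n ^ (-α + o(1))` on the lattice of
triangles and dodecagons; `a_n = μ ^ n n ^ (α + o(1))` on this lattice; `P_n = n ^ (-α + o(1))` on the
honeycomb lattice; `a_n = √(2 + √2) ^ n n ^ (α + o(1))` on the honeycomb lattice; and they imply that
`α ≥ 1 / 75`. -/
theorem result : ∃ μ K : ℝ, 1 < μ ∧ 1 / μ ^ 2 + 1 / μ ^ 3 = 1 / √(2 + √2) ∧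
    Tendsto (fun n : ℕ => a Dod origin n ^ (1 / (n : ℝ))) atTop (𝓝 μ) ∧
    (∀ n : ℕ, μ ^ n ≤ a Dod origin n) ∧
    (∀ n : ℕ, 2 ≤ n → Real.exp (-(K * Real.log n ^ 2)) ≤ P Dod origin n ∧
      μ ^ n * (n : ℝ) ^ (1 / 75 : ℝ) ≤ K * a Dod origin n ∧
      a Dod origin n ≤ μ ^ n * Real.exp (K * Real.log n ^ 2)) ∧
    ∀ α : ℝ, List.TFAE [
      Tendsto (fun n : ℕ => Real.log (P Dod origin n) / Real.log n) atTop (𝓝 (-α)),
      Tendsto (fun n : ℕ => Real.log (a Dod origin n / μ ^ n) / Real.log n) atTop (𝓝 α),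
      Tendsto (fun n : ℕ => Real.log (P Hex (0, 0) n) / Real.log n) atTop (𝓝 (-α)),
      Tendsto (fun n : ℕ => Real.log (a Hex (0, 0) n / √(2 + √2) ^ n) / Real.log n) atTop (𝓝 α)] ∧
      (Tendsto (fun n : ℕ => Real.log (P Dod origin n) / Real.log n) atTop (𝓝 (-α)) →
        1 / 75 ≤ α) := by
  have ho : origin = H30.FT.cor ((0, 0), 0) := by
    refine Subtype.ext ?_
    change (((0, 0), (1, 0)) : (ℤ × ℤ) × (ℤ × ℤ)) = ((0, 0), H30.FT.nb (0, 0) 0)
    rw [(H30.FT.nb_val (0, 0)).1]
    simp [H30.FT.sg]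
  have haD : ∀ n : ℕ, a Dod origin n = H30.FT.aF n := by
    intro n
    unfold a
    rw [ho]
    exact congrArg _ (H30.FT.aF_fpaths n)
  have haH : ∀ n : ℕ, a Hex (0, 0) n = H30.FT.aH n := fun n => congrArg _ (H30.FT.aH_fpaths n)
  have hPD : ∀ n : ℕ, P Dod origin n = (H30.FT.aF (2 * n) : ℝ) / (H30.FT.aF n : ℝ) ^ 2 := by
    intro n
    unfold P
    rw [haD, ho]
    congr 1
    exact congrArg _ (H30.FT.prs_dod n)
  have hPH : ∀ n : ℕ, P Hex (0, 0) n = (H30.FT.aH (2 * n) : ℝ) / (H30.FT.aH n : ℝ) ^ 2 := by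
    intro n
    unfold P
    rw [haH]
    congr 1
    exact congrArg _ (H30.FT.prs_hex n)
  have hmu : 0 < H30.FT.muF := lt_trans one_pos H30.FT.muF_gt
  obtain ⟨K1, h1⟩ := H30.FT.P_low
  obtain ⟨K2, hK2, h2⟩ := H30.FT.eF_up
  obtain ⟨c, hc, hcl⟩ := H30.FT.rF_low75
  refine ⟨H30.FT.muF, max (max K1 K2) (1 / c), H30.FT.muF_gt, H30.FT.muF_eq, ?_, ?_, ?_, ?_⟩
  · simp only [haD]
    exact H30.FT.muF_lim
  · intro n
    rw [haD]
    exact H30.FT.aF_low n
  · intro n hn
    have hl : 0 ≤ Real.log n ^ 2 := sq_nonneg _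
    have m1 : K1 ≤ max (max K1 K2) (1 / c) := (le_max_left _ _).trans (le_max_left _ _)
    have m2 : K2 ≤ max (max K1 K2) (1 / c) := (le_max_right _ _).trans (le_max_left _ _)
    have m3 : 1 / c ≤ max (max K1 K2) (1 / c) := le_max_right _ _
    refine ⟨?_, ?_, ?_⟩
    · rw [hPD]
      refine le_trans ?_ (h1 n hn)
      rw [Real.exp_le_exp]
      have := mul_le_mul_of_nonneg_right m1 hl
      linarith
    · rw [haD]
      have h3 := hcl n (by omega)
      have h4 := H30.FT.aF_pos n
      rw [H30.FT.rF_mu, le_div_iff₀ (by positivity)] at h3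
      have h5 : H30.FT.muF ^ n * (n : ℝ) ^ (1 / 75 : ℝ) ≤ 1 / c * H30.FT.aF n := by
        rw [div_mul_eq_mul_div, one_mul, le_div_iff₀ hc]
        linarith
      exact h5.trans (mul_le_mul_of_nonneg_right m3 h4.le)
    · rw [haD]
      have h3 := h2 n hn
      have h4 := mul_le_mul_of_nonneg_right m2 hl
      have h5 := H30.FT.rF_one n
      have h6 : H30.FT.rF n ≤ Real.exp (max (max K1 K2) (1 / c) * Real.log n ^ 2) := by
        unfold H30.FT.eF at h3
        rw [Real.log_le_iff_le_exp (by linarith)] at h3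
        exact h3.trans (Real.exp_le_exp.2 h4)
      rw [H30.FT.rF_mu, div_le_iff₀ (by positivity)] at h6
      linarith
  · intro α
    have e1 : (fun n : ℕ => Real.log (a Dod origin n / H30.FT.muF ^ n) / Real.log n) =
        fun n : ℕ => H30.FT.eF n / Real.log n := by
      funext n
      unfold H30.FT.eF
      rw [haD, H30.FT.rF_mu]
    have e2 : (fun n : ℕ => Real.log (a Hex (0, 0) n / √(2 + √2) ^ n) / Real.log n) =
        fun n : ℕ => H30.FT.eH n / Real.log n := by
      funext n
      unfold H30.FT.eH H30.FT.rH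
      rw [haH]
      rfl
    simp only [hPD, hPH, e1, e2]
    refine ⟨?_, fun h => H30.FT.eF_low75 ((H30.FT.dbl_F α).1 h)⟩
    tfae_have 1 ↔ 2 := H30.FT.dbl_F α
    tfae_have 3 ↔ 4 := H30.FT.dbl_H α
    tfae_have 4 ↔ 2 := H30.FT.HF_iff α
    tfae_finish

end Pool.Agent.Results.MP_8c6f77_pr.TrianglesDodecagons
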